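import Pool.Agent.Helper26.MT.Zf

/-! CLOSURE OF CLASSES DEFINED BY FORMS, part 2: the sum of the shifts of a form to the nodes of a cell. -/

set_option autoImplicit false

namespace Pool.Agent.Helper81.DC

open Finset MvPolynomial Matrix Pool.Agent.Helper95.LF Pool.Agent.Helper3.LF Pool.Agent.Helper84.MT
open Pool.Agent.Helper26.MZ (Jq_afm)
open Pool.Agent.Helper3.ZM (aff afs afs_C afs_X MM pol_MM afm afm_qf afm_symm afm_nonneg nodp_aff phi_afm)

noncomputable section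

variable {M D : ℕ}

theorem afs_zero_one (f : MvPolynomial (Fin M) ℝ) : afs 0 1 f = f := by
  induction f using MvPolynomial.induction_on with
  | C c => rw [afs_C]
  | add f g hf hg => rw [map_add, hf, hg]
  | mul_X f n hf =>
    rw [map_mul, hf, afs_X]
    simp

theorem MM_zero_one : MM D (0 : Fin M → ℝ) 1 = 1 := by
  have h1 : ∀ c : Mon M D → ℝ, MM D (0 : Fin M → ℝ) 1 *ᵥ c = c := by
    intro c
    apply Pool.Agent.Helper26.MZ.pol_inj
    rw [pol_MM, afs_zero_one]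
  ext a b
  have h2 := congrFun (h1 (Pi.single b 1)) a
  rw [Matrix.mulVec_single_one] at h2
  rw [Matrix.one_apply]
  have h3 : MM D (0 : Fin M → ℝ) 1 a b = (Pi.single b 1 : Mon M D → ℝ) a := h2
  rw [h3, Pi.single_apply]

theorem afm_zero_one (A : Matrix (Mon M D) (Mon M D) ℝ) : afm 0 1 A = A := by
  unfold afm
  rw [MM_zero_one, Matrix.one_mul, Matrix.transpose_one, Matrix.mul_one]

/-- the shift to the node `j` of the cell of side `r` -/
def nd (M D : ℕ) (r : ℝ) (j : Fin M → Fin (D + 1)) : Fin M → ℝ := fun i => r * nod D (j i)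

theorem aff_nd (r : ℝ) (j : Fin M → Fin (D + 1)) (p : Fin M → ℝ) : aff (nd M D r j) 1 p = nodp D p r j := by
  funext i
  unfold aff nd nodp
  ring

theorem nd_zero (r : ℝ) : nd M D r (fun _ => 0) = 0 := by
  funext i
  unfold nd nod
  simp

/-- the sum of the shifts of the form to the nodes of the cell of side `r` -/
def shm (r : ℝ) (A : Matrix (Mon M D) (Mon M D) ℝ) : Matrix (Mon M D) (Mon M D) ℝ :=
  ∑ j : Fin M → Fin (D + 1), afm (nd M D r j) 1 A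

theorem shm_symm (r : ℝ) {A : Matrix (Mon M D) (Mon M D) ℝ} (hA : A.IsSymm) : (shm r A).IsSymm := by
  unfold shm Matrix.IsSymm
  rw [Matrix.transpose_sum]
  exact Finset.sum_congr rfl fun j _ => afm_symm _ _ hA

theorem shm_qf (r : ℝ) (A : Matrix (Mon M D) (Mon M D) ℝ) (x : Mon M D → ℝ) :
    x ⬝ᵥ (shm r A *ᵥ x) = ∑ j : Fin M → Fin (D + 1), x ⬝ᵥ (afm (nd M D r j) 1 A *ᵥ x) := dv_sum _ _

/-- the form is at most the sum of its shifts -/
theorem shm_ge (r : ℝ) {A : Matrix (Mon M D) (Mon M D) ℝ} (hA : ∀ x, 0 ≤ x ⬝ᵥ (A *ᵥ x)) (x : Mon M D → ℝ) :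
    x ⬝ᵥ (A *ᵥ x) ≤ x ⬝ᵥ (shm r A *ᵥ x) := by
  rw [shm_qf]
  have h1 := Finset.single_le_sum (f := fun j : Fin M → Fin (D + 1) => x ⬝ᵥ (afm (nd M D r j) 1 A *ᵥ x))
    (fun j _ => afm_nonneg _ _ hA x) (Finset.mem_univ (fun _ => 0))
  have h2 : x ⬝ᵥ (afm (nd M D r (fun _ => 0)) 1 A *ᵥ x) = x ⬝ᵥ (A *ᵥ x) := by
    rw [nd_zero, afm_zero_one]
  rw [← h2]
  exact h1

theorem phi_sum' {κ : Type} [Fintype κ] (r : ℝ) (B : κ → Matrix (Mon M D) (Mon M D) ℝ) (p : Fin M → ℝ) :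
    phi r (∑ k, B k) p = ∑ k, phi r (B k) p := by
  unfold phi
  rw [Finset.sum_comm]
  exact Finset.sum_congr rfl fun j _ => dv_sum _ _

/-- size of the sum of the shifts on smaller cells -/
theorem shm_phi {A : Matrix (Mon M D) (Mon M D) ℝ} (hA : PdM A) {r r' : ℝ} (hr' : 0 < r') (hr : r' ≤ r)
    (p : Fin M → ℝ) : phi r' (shm r A) p ≤ nn M D * (nn M D * (Cu D * Cm M D * 2 ^ D) ^ 2 * phi r A p) := by
  unfold shm
  rw [phi_sum']
  have h1 : ∀ j ∈ (Finset.univ : Finset (Fin M → Fin (D + 1))), phi r' (afm (nd M D r j) 1 A) p ≤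
      nn M D * (Cu D * Cm M D * 2 ^ D) ^ 2 * phi r A p := by
    intro j _
    rw [phi_afm, one_mul, aff_nd]
    apply phi_comp A hA r r' 2 (hr'.trans_le hr) hr'.le (by norm_num)
    intro i
    have h2 : nodp D p r j i - p i = r * nod D (j i) := by
      unfold nodp
      ring
    rw [h2, abs_of_nonneg (mul_nonneg (hr'.le.trans hr) (nod_nonneg D _))]
    have h3 := nod_le D (j i) (Nat.lt_succ_iff.mp (j i).2)
    nlinarith
  refine (Finset.sum_le_card_nsmul _ _ _ h1).trans (le_of_eq ?_)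
  rw [nsmul_eq_mul, card_nodes]

/-- the gradient at the point and its cell of side `r` is at most the gradient of the sum of the shifts on any cell at
the point -/
theorem shm_Jq {A : Matrix (Mon M D) (Mon M D) ℝ} (hA : ∀ x, 0 ≤ x ⬝ᵥ (A *ᵥ x)) (r r' : ℝ) (p e : Fin M → ℝ) :
    e ⬝ᵥ (Jq r A p *ᵥ e) ≤ e ⬝ᵥ (Jq r' (shm r A) p *ᵥ e) := by
  have h0 : ∀ (B : Matrix (Mon M D) (Mon M D) ℝ), (∀ x, 0 ≤ x ⬝ᵥ (B *ᵥ x)) → ∀ q : Fin M → ℝ,
      (Wq M D q *ᵥ e) ⬝ᵥ (B *ᵥ (Wq M D q *ᵥ e)) ≤ e ⬝ᵥ (Jq r' B q *ᵥ e) := by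
    intro B hB q
    rw [Jq_qf]
    have h1 := Finset.single_le_sum (f := fun j : Fin M → Fin (D + 1) => (Wq M D (nodp D q r' j) *ᵥ e) ⬝ᵥ
      (B *ᵥ (Wq M D (nodp D q r' j) *ᵥ e))) (fun j _ => hB _) (Finset.mem_univ (fun _ => 0))
    have h2 : nodp D q r' (fun _ => 0) = q := by
      rw [← aff_nd, nd_zero]
      funext i
      unfold aff
      simp
    rw [h2] at h1
    exact h1
  have h1 : e ⬝ᵥ (Jq r' (shm r A) p *ᵥ e) = ∑ j : Fin M → Fin (D + 1), e ⬝ᵥ (Jq r' (afm (nd M D r j) 1 A) p *ᵥ e) := by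
    rw [Jq_qf]
    simp only [Jq_qf]
    rw [Finset.sum_comm]
    exact Finset.sum_congr rfl fun j _ => shm_qf _ _ _
  rw [h1, Jq_qf]
  apply Finset.sum_le_sum
  intro j _
  rw [Jq_afm, one_pow, one_smul, one_mul, aff_nd]
  exact h0 A hA _

end

end Pool.Agent.Helper81.DC
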