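import Pool.Agent.Helper81.DC.Pt
import Pool.Agent.Helper81.DC.Shf
import Pool.Agent.Helper81.MT.Bas

/-! CLOSURE OF CLASSES DEFINED BY FORMS, part 3: truncations, finer bases. -/

set_option autoImplicit false

namespace Pool.Agent.Helper81.DC

open Finset Filter Topology Matrix Pool.Agent.Helper69.RK Pool.Agent.Helper31.EC Pool.Agent.Helper31.EC.Sp
open Pool.Agent.Helper40.EL Pool.Agent.Helper89.LX Pool.Agent.Helper3.LF Pool.Agent.Helper84.MT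
open Pool.Agent.Helper36.AM Pool.Agent.Helper59.EV
open Pool.Agent.Helper3.PR (cutm cutFD cut_typ)
open Pool.Agent.Helper14.MC (adf_sub)
open Pool.Agent.Helper52.SL (untL untF)

noncomputable section

variable {S T : Sp} {M : ℕ} {E : ℕ → ℕ} {ι κ : Type}

/-- properties which can be checked for the sum of the shifts on a smaller cell -/
def ShP (pr : Prp M) : Prop := ∀ (D : ℕ) (A : Matrix (Mon M D) (Mon M D) ℝ), A.IsSymm →
  (∀ x, x ⬝ᵥ x ≤ x ⬝ᵥ (A *ᵥ x)) → ∀ (r r' : ℝ) (P : Fin M → ℝ) (B : ℝ), 0 < r' → r' ≤ r →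
    pr D r' (shm r A) P B → pr D r A P B

theorem prU_ShP (k : ℕ) : ShP (prU M k) := by
  intro D A _ hA r r' P B _ _ h
  have h1 : ∀ x, 0 ≤ x ⬝ᵥ (A *ᵥ x) := fun x => (dot_self_nonneg x).trans (hA x)
  refine UDp.mono (c := 1) h zero_le_one (fun v => ?_) (le_of_eq (one_mul B))
  rw [one_mul]
  exact shm_Jq h1 r r' P v

theorem sub_of_chg {Z : ∀ k, Setoid (S.F k).Ω} {c : ℝ} {hc : 0 < c} {K : ℕ → ℝ} (hK : (S.chg Z c hc).Sub K) :
    S.Sub K := by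
  refine ⟨hK.1, ?_⟩
  have h0 : Tendsto (fun k => Real.logb 2 (K k + 2) / (c * (S.F k).n)) UF (𝓝 0) := hK.2
  have h1 := h0.const_mul c
  rw [mul_zero] at h1
  refine h1.congr fun k => ?_
  have := (S.F k).pos
  field_simp

/-- TRUNCATIONS -/
theorem PTs.trn [Finite ι] {pr : Prp M} (hpr : ShP pr) {s : MSys S M E ι} (h : PTs pr s) (r : ℝ) (h0 : 0 < r)
    (h1 : r ≤ 1) : PTs pr (s.trn r h0 h1) := by
  intro D b hb0 hb1 x hx e he
  set l : Lab S := untL (lb x) with hl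
  have hdm : s.DMc (r * b) l := MSys.DMc.of_trn (h1 := h1) le_rfl (Gau.Adf.dm _ hx)
  set g : ∀ k, (l k).T.Ω → Matrix (Mon M D) (Mon M D) ℝ :=
    fun k ω => shm (S.dl r k) ((x k).g ω) with hg
  have hm : ∀ k ω ω', (l k).T.μ ω ≠ 0 → (l k).T.μ ω' ≠ 0 → (l k).V ω ω' → (l k).T.Z ω ω' → g k ω = g k ω' := by
    intro k ω ω' a b' c d
    show shm _ _ = shm _ _
    rw [((x k).meas ω ω' a b' c d).1]
  have hcpd : ∀ᶠ k in UF, ∀ ω, (x k).l.T.μ ω ≠ 0 → ((x k).g ω).IsSymm ∧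
      ∀ v, v ⬝ᵥ v ≤ v ⬝ᵥ ((x k).g ω *ᵥ v) := by
    filter_upwards [hx 1 one_pos] with k hk ω hω
    exact ⟨(hk.2.1 ω hω).1.1, (hk.2.1 ω hω).1.2.1⟩
  have hge : ∀ᶠ k in UF, ∀ ω, (l k).T.μ ω ≠ 0 → (g k ω).IsSymm ∧ ∀ v, v ⬝ᵥ v ≤ qf (g k ω) v := by
    filter_upwards [hcpd] with k hk ω hω
    have h2 := hk ω hω
    refine ⟨shm_symm _ h2.1, fun v => (h2.2 v).trans ?_⟩
    exact shm_ge _ (fun x => (dot_self_nonneg x).trans (h2.2 x)) v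
  have hdl : ∀ k, (S.chg S.tr r h0).dl 1 k = S.dl r k := fun k => by rw [chg_dl, mul_one]
  obtain ⟨K, hK, hT⟩ := adf_sub hx
  set c0 : ℝ := nn M D * (nn M D * (Cu D * Cm M D * 2 ^ D) ^ 2) with hc0
  have hc0' : 0 ≤ c0 := by
    have := nn_one M D
    positivity
  have hT1 : Tendsto (fun k => (x k).l.T.pb (fun ω => ¬ phi ((S.chg S.tr r h0).dl 1 k) ((x k).g ω)
    (s.Q.v k ((x k).l.p.π ω)) ≤ K k)) UF (𝓝 0) := hT
  have hT' : Sp.Typ (S := l.sp) (fun k (ω : (l k).T.Ω) => (gaq s.Q D).φ k ((l k).p.π ω) (g k ω) ≤ c0 * K k) := by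
    show Tendsto (fun k => (l k).T.pb (fun ω => ¬ phi (S.dl 1 k) (g k ω) (s.Q.v k ((l k).p.π ω)) ≤ c0 * K k)) UF (𝓝 0)
    refine squeeze_zero' (Eventually.of_forall fun k => (l k).T.pb_nonneg _) ?_ hT1
    filter_upwards [hcpd] with k hk
    apply (l k).T.pb_mono
    intro ω hω h3 h4
    apply h3
    have h5 := hk ω hω
    rw [hdl] at h4
    have h6 := shm_phi (pdM_of_one_le h5.1 h5.2) (S.dl_pos 1 k) (S.dl_anti h1 k) (s.Q.v k ((x k).l.p.π ω))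
    refine le_trans h6 ?_
    rw [← mul_assoc]
    exact mul_le_mul_of_nonneg_left h4 hc0'
  have hKs : S.Sub (fun k => c0 * K k) := (S.Sub_const hc0').mul (sub_of_chg hK)
  have hy := cut_adf (Φ := gaq s.Q D) (A := s.cnd (r * b)) l hdm g hm hge _ hKs hT'
  have hcut := cut_typ (Φ := gaq s.Q D) l g hge _ hKs hT'
  have hrb0 : 0 ≤ r * b := mul_nonneg h0.le hb0
  have hrb1 : r * b ≤ 1 := mul_le_one₀ h1 hb0 hb1
  have h3 := h D (r * b) hrb0 hrb1 _ hy (r * e) (mul_pos h0 he)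
  have h4 : Tendsto (fun k => (l k).T.pb (fun ω => ¬ (pr D (S.dl 1 k) (cutm ((gaq s.Q D).cp k) (g k ω))
    (s.Q.v k ((l k).p.π ω)) (2 ^ (2 * (r * b + r * e) * (S.F k).n)) ∧ Cpd ((gaq s.Q D).cp k) (g k ω)))) UF (𝓝 0) :=
    typ_and (S := l.sp) h3 hcut
  show Tendsto (fun k => (x k).l.T.pb (fun ω => ¬ pr D ((S.chg S.tr r h0).dl 1 k) ((x k).g ω)
    (s.Q.v k ((x k).l.p.π ω)) (2 ^ (2 * (b + e) * (r * (S.F k).n))))) UF (𝓝 0)
  refine squeeze_zero' (Eventually.of_forall fun k => (x k).l.T.pb_nonneg _) ?_ h4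
  filter_upwards [hcpd] with k hk
  refine (x k).l.T.pb_mono ?_
  intro ω hω h5 h6
  apply h5
  have h7 := hk ω hω
  have h8 := h6.1
  have e1 : cutm ((gaq s.Q D).cp k) (g k ω) = g k ω := cutm_pos h6.2
  rw [e1] at h8
  rw [hdl]
  have h9 := hpr D ((x k).g ω) h7.1 h7.2 (S.dl r k) (S.dl 1 k) _ _ (S.dl_pos 1 k) (S.dl_anti h1 k) h8
  have e2 : 2 * (r * b + r * e) * (S.F k).n = 2 * (b + e) * (r * (S.F k).n) := by ring
  rw [e2] at h9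
  exact h9

/-- FINER BASES -/
theorem PTs.bas [Finite ι] {pr : Prp M} {s : MSys S M E ι} (h : PTs pr s) (Z : ∀ k, Setoid (S.F k).Ω)
    (hZ : ∀ i, PLe (fun k => fc (Z k)) (fun k => fc ((s.lf i).La k))) (hQ : PLe (fun k => fc (Z k)) (pcd s.Q)) :
    PTs pr (s.bas Z hZ) := by
  intro D c h0 h1 x hx e he
  set l : Lab S := Lab.bsc Z (lb x) with hl
  have hdm : s.DMc c l := MSys.DMc.bsc hQ (Gau.Adf.dm _ hx)
  set g : ∀ k, (l k).T.Ω → Matrix (Mon M D) (Mon M D) ℝ := fun k ω => (x k).g ω with hg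
  have hm : ∀ k ω ω', (l k).T.μ ω ≠ 0 → (l k).T.μ ω' ≠ 0 → (l k).V ω ω' → (l k).T.Z ω ω' → g k ω = g k ω' := by
    intro k ω ω' a b' c' d
    have h2 : ((S.chg Z 1 one_pos).F k).Z ((x k).l.p.π ω) ((x k).l.p.π ω') := ⟨c'.1, d⟩
    exact ((x k).meas ω ω' a b' c'.2 (((x k).l.p.hZ ω ω' a b').mpr h2)).1
  have hge : ∀ᶠ k in UF, ∀ ω, (l k).T.μ ω ≠ 0 → (g k ω).IsSymm ∧ ∀ v, v ⬝ᵥ v ≤ qf (g k ω) v := by
    filter_upwards [hx 1 one_pos] with k hk ω hω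
    exact ⟨(hk.2.1 ω hω).1.1, (hk.2.1 ω hω).1.2.1⟩
  have hdl : ∀ k, (S.chg Z 1 one_pos).dl 1 k = S.dl 1 k := fun k => by rw [chg_dl, mul_one]
  obtain ⟨K, hK, hT⟩ := adf_sub hx
  have hT1 : Tendsto (fun k => (x k).l.T.pb (fun ω => ¬ phi ((S.chg Z 1 one_pos).dl 1 k) ((x k).g ω)
    (s.Q.v k ((x k).l.p.π ω)) ≤ K k)) UF (𝓝 0) := hT
  have hT' : Sp.Typ (S := l.sp) (fun k (ω : (l k).T.Ω) => (gaq s.Q D).φ k ((l k).p.π ω) (g k ω) ≤ K k) := by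
    show Tendsto (fun k => (l k).T.pb (fun ω => ¬ phi (S.dl 1 k) (g k ω) (s.Q.v k ((l k).p.π ω)) ≤ K k)) UF (𝓝 0)
    simp only [hdl] at hT1
    exact hT1
  have hKs : S.Sub K := sub_of_chg hK
  have hy := cut_adf (Φ := gaq s.Q D) (A := s.cnd c) l hdm g hm hge _ hKs hT'
  have hcut := cut_typ (Φ := gaq s.Q D) l g hge _ hKs hT'
  have h3 := h D c h0 h1 _ hy e he
  have h4 : Tendsto (fun k => (l k).T.pb (fun ω => ¬ (pr D (S.dl 1 k) (cutm ((gaq s.Q D).cp k) (g k ω))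
    (s.Q.v k ((l k).p.π ω)) (2 ^ (2 * (c + e) * (S.F k).n)) ∧ Cpd ((gaq s.Q D).cp k) (g k ω)))) UF (𝓝 0) :=
    typ_and (S := l.sp) h3 hcut
  show Tendsto (fun k => (x k).l.T.pb (fun ω => ¬ pr D ((S.chg Z 1 one_pos).dl 1 k) ((x k).g ω)
    (s.Q.v k ((x k).l.p.π ω)) (2 ^ (2 * (c + e) * (1 * (S.F k).n))))) UF (𝓝 0)
  refine squeeze_zero (fun k => (x k).l.T.pb_nonneg _) (fun k => ?_) h4
  refine (x k).l.T.pb_mono ?_
  intro ω hω h5 h6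
  apply h5
  have h8 := h6.1
  have e1 : cutm ((gaq s.Q D).cp k) (g k ω) = g k ω := cutm_pos h6.2
  rw [e1] at h8
  rw [hdl, one_mul]
  exact h8

end

end Pool.Agent.Helper81.DC
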