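import Pool.Agent.Helper36.AM.DK
import Pool.Agent.Helper84.MT.Evt

/-! CLOSURE OF CLASSES DEFINED BY FORMS, part 1: typical properties of all admissible forms of all windows; extensions,
more types, restrictions to events. -/

set_option autoImplicit false

namespace Pool.Agent.Helper81.DC

open Finset Filter Topology Matrix Pool.Agent.Helper69.RK Pool.Agent.Helper31.EC Pool.Agent.Helper31.EC.Sp
open Pool.Agent.Helper40.EL Pool.Agent.Helper89.LX Pool.Agent.Helper3.LF Pool.Agent.Helper84.MT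
open Pool.Agent.Helper36.AM Pool.Agent.Helper59.EV

noncomputable section

variable {S T : Sp} {M : ℕ} {E : ℕ → ℕ} {ι κ : Type}

/-- properties of a form `A` of degree `D` on the cell of side `r` at the point `P`, with the bound `B` -/
def Prp (M : ℕ) : Type := ∀ D : ℕ, ℝ → Matrix (Mon M D) (Mon M D) ℝ → (Fin M → ℝ) → ℝ → Prop

/-- the property of the class `(D_k)` -/
def prU (M k : ℕ) : Prp M := fun _ r A P B => UDp k (Jq r A P) B

/-- typical property at the window `c` -/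
def PTf (pr : Prp M) (Q : S.VV M) (c : ℝ) {D : ℕ} (x : ∀ n, FD (S.F n) (Mon M D)) : Prop :=
  ∀ e : ℝ, 0 < e → Sp.Typ (S := (lb x).sp) (fun n (ω : (x n).l.T.Ω) =>
    pr D (S.dl 1 n) ((x n).g ω) (Q.v n ((x n).l.p.π ω)) (2 ^ (2 * (c + e) * (S.F n).n)))

/-- typical property of all admissible forms of all windows -/
def PTs (pr : Prp M) (s : MSys S M E ι) : Prop := ∀ (D : ℕ) (c : ℝ), 0 ≤ c → c ≤ 1 →
  ∀ x : ∀ n, FD (S.F n) (Mon M D), (gaq s.Q D).Adf (s.cnd c) x → PTf pr s.Q c x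

theorem PTf_prU {k : ℕ} {Q : S.VV M} {c : ℝ} {D : ℕ} {x : ∀ n, FD (S.F n) (Mon M D)} :
    PTf (prU M k) Q c x ↔ UDf Q k c x := Iff.rfl

/-- THE CLASS `(D_k)` in terms of all admissible forms -/
theorem DK_iff {k g r : ℕ} {s : MSys S M (lin g) (Fin r)} : DK M k S g r s ↔ PTs (prU M k) s := by
  constructor
  · intro h D c h0 h1 y hy
    obtain ⟨x, hx⟩ := s.exists_can D c
    exact UDf.low hx.1 hy (h D c h0 h1 x hx)
  · intro h D c h0 h1 x hx
    exact h D c h0 h1 x hx.1.1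

/-- extensions -/
theorem PTs.pull [Finite ι] {pr : Prp M} {s : MSys S M E ι} (h : PTs pr s) (p : Pj T S) : PTs pr (s.pull p) := by
  intro D c h0 h1 x hx e he
  rw [MSys.cnd_pull] at hx
  have h2 : gaq (s.pull p).Q D = (gaq s.Q D).pull p := gaq_pull p s.Q D
  rw [h2] at hx
  have h3 : Tendsto (fun n => (x n).l.T.pb (fun ω => ¬ pr D (S.dl 1 n) ((x n).g ω) (s.Q.v n (p.π n ((x n).l.p.π ω)))
    (2 ^ (2 * (c + e) * (S.F n).n)))) UF (𝓝 0) := h D c h0 h1 _ (Gau.Adf.dn p hx) e he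
  show Tendsto (fun n => (x n).l.T.pb (fun ω => ¬ pr D (T.dl 1 n) ((x n).g ω) (s.Q.v n (p.π n ((x n).l.p.π ω)))
    (2 ^ (2 * (c + e) * (T.F n).n)))) UF (𝓝 0)
  have e1 : ∀ n, T.dl 1 n = S.dl 1 n := by
    intro n
    unfold Sp.dl
    rw [p.hn n]
  simp only [e1, p.hn]
  exact h3

/-- more types -/
theorem PTs.union [Finite ι] [Finite κ] {pr : Prp M} {s : MSys S M E ι} (h : PTs pr s) (l : κ → Leaf S s.Q E) :
    PTs pr (s.union l) := by
  intro D c h0 h1 x hx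
  apply h D c h0 h1 x
  refine Gau.Adf_iff.2 ⟨?_, hx.fm⟩
  exact ((MSys.DMc_union_iff s l c _).mp (Gau.Adf.dm _ hx)).1

/-- more types on an extension -/
theorem PTs.add [Finite ι] [Finite κ] {pr : Prp M} {s : MSys S M E ι} (h : PTs pr s) (p : Pj T S)
    (l : κ → Leaf T (p.vv s.Q) E) : PTs pr (s.add p l) := PTs.union (h.pull p) l

/-- names of the types -/
theorem PTs.ren [Finite ι] [Finite κ] {pr : Prp M} {s : MSys S M E ι} (h : PTs pr s) {f : κ → ι}
    (hf : Function.Surjective f) : PTs pr (s.ren f) := by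
  intro D c h0 h1 x hx
  exact h D c h0 h1 x ((MSys.Adf_ren_iff s hf D c x).mp hx)

/-- restrictions to events -/
theorem PTs.im [Finite ι] {pr : Prp M} {s : MSys S M E ι} (h : PTs pr s) (p : Pj T S) (A : ∀ k, (T.F k).Ω → Prop)
    (hA : 0 < ul (T.pr A)) : PTs pr (s.im p A hA) := by
  intro D c h0 h1 x hx e he
  rw [MSys.cnd_im] at hx
  have h2 : gaq (s.im p A hA).Q D = (gaq s.Q D).im p A := gaq_im _ _ _ _
  rw [h2] at hx
  have hpos : ∃ r : ℝ, 0 < r ∧ ∀ᶠ k in UF, r ≤ (T.F k).pb (A k) := ⟨ul (T.pr A) / 2, by positivity, by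
    have h3 := ul_tendsto (UB_pr A)
    exact h3.eventually (eventually_ge_nhds (by linarith))⟩
  obtain ⟨r, hr, hrA⟩ := hpos
  have key : ∀ y2 : ∀ k, FD ((Sp.im p fun k ω => ¬ A k ω).F k) (Mon M D),
      (gaq s.Q D).Adf (s.cnd c) (gluS p A x y2) →
      Sp.Typ (S := (lb x).sp) (fun n (ω : (x n).l.T.Ω) =>
        pr D (S.dl 1 n) ((x n).g ω) (s.Q.v n ((x n).l.p.π ω)) (2 ^ (2 * (c + e) * (S.F n).n))) := by
    intro y2 hy
    have h3 : Tendsto (fun n => (gluS p A x y2 n).l.T.pb (fun ω => ¬ pr D (S.dl 1 n) ((gluS p A x y2 n).g ω)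
      (s.Q.v n ((gluS p A x y2 n).l.p.π ω)) (2 ^ (2 * (c + e) * (S.F n).n)))) UF (𝓝 0) := h D c h0 h1 _ hy e he
    show Tendsto (fun n => (x n).l.T.pb (fun ω => ¬ pr D (S.dl 1 n) ((x n).g ω)
      (s.Q.v n ((x n).l.p.π ω)) (2 ^ (2 * (c + e) * (S.F n).n)))) UF (𝓝 0)
    have h4 := h3.const_mul (1 / r)
    rw [mul_zero] at h4
    refine tendsto_of_tendsto_of_tendsto_of_le_of_le' tendsto_const_nhds h4
      (Eventually.of_forall fun n => (x n).l.T.pb_nonneg _) ?_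
    filter_upwards [hrA] with n hn
    have h5 := pb_glu (fun (ω : (S.F n).Ω) B => ¬ pr D (S.dl 1 n) B (s.Q.v n ω) (2 ^ (2 * (c + e) * (S.F n).n)))
      (x n) (y2 n)
    have h6 : (gluS p A x y2 n).l.T.pb (fun ω => ¬ pr D (S.dl 1 n) ((gluS p A x y2 n).g ω)
      (s.Q.v n ((gluS p A x y2 n).l.p.π ω)) (2 ^ (2 * (c + e) * (S.F n).n))) =
      (T.F n).pb (A n) * (x n).l.T.pb (fun ω => ¬ pr D (S.dl 1 n) ((x n).g ω)
        (s.Q.v n ((x n).l.p.π ω)) (2 ^ (2 * (c + e) * (S.F n).n))) +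
      (1 - (T.F n).pb (A n)) * (y2 n).l.T.pb (fun ω => ¬ pr D (S.dl 1 n) ((y2 n).g ω)
        (s.Q.v n ((y2 n).l.p.π ω)) (2 ^ (2 * (c + e) * (S.F n).n))) := h5
    rw [h6]
    have h7 := (x n).l.T.pb_nonneg (fun ω => ¬ pr D (S.dl 1 n) ((x n).g ω)
        (s.Q.v n ((x n).l.p.π ω)) (2 ^ (2 * (c + e) * (S.F n).n)))
    have h8 : 0 ≤ (1 - (T.F n).pb (A n)) * (y2 n).l.T.pb (fun ω => ¬ pr D (S.dl 1 n) ((y2 n).g ω)
        (s.Q.v n ((y2 n).l.p.π ω)) (2 ^ (2 * (c + e) * (S.F n).n))) :=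
      mul_nonneg (sub_nonneg.mpr ((T.F n).pb_le_one (A n))) ((y2 n).l.T.pb_nonneg _)
    rw [one_div, inv_mul_eq_div, le_div_iff₀ hr]
    nlinarith
  by_cases hA' : 0 < ul (T.pr fun k ω => ¬ A k ω)
  · exact key _ (Gau.Adf.glu (Φ := gaq s.Q D) hx (Gau.triv_Adf _ _))
  · have ht : Typ A := by
      rw [Typ_iff]
      have h3 := ul_not A
      have h4 : ul (T.pr fun k ω => ¬ A k ω) = 0 := by
        apply le_antisymm (not_lt.mp hA')
        exact const_le_ul (UB_pr _) (Eventually.of_forall fun k => (T.F k).pb_nonneg _)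
      have h5 : ul (T.pr A) = 1 := by linarith
      have h6 := ul_tendsto (UB_pr A)
      rw [h5] at h6
      exact h6
    exact key _ (Gau.Adf.glu_triv (Φ := gaq s.Q D) ht hx)

end

end Pool.Agent.Helper81.DC
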